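import Pool.Agent.H94.C1.Targets
import Pool.Agent.H22.KL.GRAM

/-! KIA: the kernel inequality at frequency one for `2 < p < 3`. -/

set_option autoImplicit false

namespace Pool.Agent.H27.C1

open MeasureTheory Set Pool.Agent.H82.KL Pool.Agent.H94.C1
open scoped ENNReal NNReal

theorem bc_indicator {d : ℕ} {f : EE d → ℂ} (hf : BC f) {S : Set (EE d)}
    (hS : MeasurableSet S) : BC (S.indicator f) := by
  obtain ⟨h1, ⟨A, h2⟩, R, h3⟩ := hf
  refine ⟨h1.indicator hS, ⟨A, fun y => (norm_indicator_le_norm_self f y).trans (h2 y)⟩, R,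
    fun y hy => ?_⟩
  by_cases hyS : y ∈ S
  · rw [indicator_of_mem hyS, h3 y hy]
  · rw [indicator_of_notMem hyS]

theorem w_integrable {d : ℕ} {a f : EE d → ℂ} (ha : Sym a) (hf : BC f) (z : EE d × ℝ) :
    Integrable fun y : EE d => U a (z.1 - y, z.2) * f y := by
  obtain ⟨-, -, h3, -⟩ := Pool.Agent.H22.KL.gram_main d a ha
  obtain ⟨A, hA⟩ := hf.2.1
  exact (h3 z).1.mul_bdd hf.1.aestronglyMeasurable (Filter.Eventually.of_forall hA)

theorem w_sub {d : ℕ} {a f : EE d → ℂ} (ha : Sym a) (hf : BC f) {S : Set (EE d)}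
    (hS : MeasurableSet S) (z : EE d × ℝ) :
    ‖W a (univ.indicator f) z‖ₑ ≤ ‖W a (S.indicator f) z‖ₑ + ‖W a (Sᶜ.indicator f) z‖ₑ := by
  have h1 : W a (univ.indicator f) z = W a (S.indicator f) z + W a (Sᶜ.indicator f) z := by
    unfold W
    rw [← integral_add (w_integrable ha (bc_indicator hf hS) z)
      (w_integrable ha (bc_indicator hf hS.compl) z)]
    refine integral_congr_ae (Filter.Eventually.of_forall fun y => ?_)
    beta_reduce
    rw [← mul_add, indicator_univ]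
    congr 1
    have h2 := indicator_self_add_compl S f
    exact (congrFun h2 y).symm
  rw [h1]
  exact enorm_add_le _ _

theorem wt_measurable {d : ℕ} : Measurable (wt (d := d)) := by
  unfold wt
  fun_prop

theorem ka_measurable {d : ℕ} (R : ℝ) {g : EE d → ℝ≥0∞} (hg : Measurable g) :
    Measurable (ka R g) := by
  unfold ka
  have h1 : Measurable fun q : EE d × EE d => g q.2 * (ENNReal.ofReal (R ^ 2) * wt (q.1 - q.2)) :=
    (hg.comp measurable_snd).mul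
      ((wt_measurable.comp (measurable_fst.sub measurable_snd)).const_mul _)
  exact h1.lintegral_prod_right'

theorem av_measurable {d : ℕ} {g : EE d → ℝ≥0∞} (hg : Measurable g) :
    Measurable (av g) := by
  unfold av
  have h1 : Measurable fun q : (EE d × ℝ) × EE d => g q.2 *
      ENNReal.ofReal (((1 + abs (‖q.1.1 - q.2‖ - q.1.2)) ^ (d + 8))⁻¹) := by
    refine (hg.comp measurable_snd).mul ?_
    fun_prop
  exact h1.lintegral_prod_right'

theorem lintegral_indicator_sq {d : ℕ} (f : EE d → ℂ) {S : Set (EE d)} (hS : MeasurableSet S)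
    (w : EE d → ℝ≥0∞) :
    ∫⁻ y, ‖S.indicator f y‖ₑ ^ 2 * w y = ∫⁻ y in S, ‖f y‖ₑ ^ 2 * w y := by
  rw [← lintegral_indicator hS]
  refine lintegral_congr fun y => ?_
  by_cases hy : y ∈ S
  · rw [indicator_of_mem hy, indicator_of_mem hy]
  · rw [indicator_of_notMem hy, indicator_of_notMem hy]
    simp

/-- the interpolated inequality -/
theorem kia_int (hT : T_TWG) (hL : T_WL2) (hI : T_INT) (d : ℕ) (θ : ℝ) (a : EE d → ℂ)
    (hd : 3 ≤ d) (h0 : 0 < θ) (h1 : θ < 1) (ha : Sym a) : ∃ C : ℝ≥0, ∀ (R : ℝ) (f : EE d → ℂ),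
      1 ≤ R → BC f → ∫⁻ t in Icc R (2 * R), ∫⁻ x : EE d, ‖W a f (x, t)‖ₑ ^ 2 *
        av (fun y => ‖f y‖ₑ) (x, t) ^ θ ≤
      C * ENNReal.ofReal (R ^ (1 - θ)) *
        ∫⁻ x, ‖f x‖ₑ ^ 2 * ka R (fun y => ‖f y‖ₑ) x ^ θ := by
  obtain ⟨C₁, hC₁⟩ := hT d a hd ha
  obtain ⟨C₂, hC₂⟩ := hL d a ha
  refine ⟨2 * max C₁ C₂, fun R f hR hf => ?_⟩
  have hR0 : 0 < R := by linarith
  have hg : Measurable fun y => ‖f y‖ₑ := hf.1.enorm
  have hswap : Measurable fun q : ℝ × EE d => ((q.2, q.1) : EE d × ℝ) := measurable_swap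
  have hWm : ∀ S, MeasurableSet S → Measurable fun q : ℝ × EE d =>
      ‖W a (S.indicator f) (q.2, q.1)‖ₑ := fun S hS =>
    (((hC₂ R _ hR (bc_indicator hf hS)).1.measurable).comp hswap).enorm
  have hav : Measurable fun q : ℝ × EE d => av (fun y => ‖f y‖ₑ) (q.2, q.1) :=
    (av_measurable hg).comp hswap
  have hka := ka_measurable R hg
  have key := hI (EE d) (ℝ × EE d) volume ((volume.restrict (Icc R (2 * R))).prod volume) θ
    (fun S q => ‖W a (S.indicator f) (q.2, q.1)‖ₑ) (fun y => ‖f y‖ₑ ^ 2)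
    (ka R fun y => ‖f y‖ₑ) (fun q => av (fun y => ‖f y‖ₑ) (q.2, q.1))
    ((max C₁ C₂ : ℝ≥0) : ℝ≥0∞) (ENNReal.ofReal R) h0 h1
    (by rw [Ne, ENNReal.ofReal_eq_zero, not_le]; exact hR0) ENNReal.ofReal_ne_top hWm
    (hg.pow_const 2) hka hav (fun S hS q => w_sub ha hf hS _) (fun S hS => ?_) (fun S hS => ?_)
  · have e1 : ∫⁻ t in Icc R (2 * R), ∫⁻ x : EE d, ‖W a f (x, t)‖ₑ ^ 2 *
        av (fun y => ‖f y‖ₑ) (x, t) ^ θ =
        ∫⁻ q, ‖W a (univ.indicator f) (q.2, q.1)‖ₑ ^ 2 * av (fun y => ‖f y‖ₑ) (q.2, q.1) ^ θ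
          ∂((volume.restrict (Icc R (2 * R))).prod volume) := by
      rw [indicator_univ]
      have hm : Measurable fun q : ℝ × EE d => ‖W a f (q.2, q.1)‖ₑ ^ 2 *
          av (fun y => ‖f y‖ₑ) (q.2, q.1) ^ θ := by
        have h2 := hWm univ MeasurableSet.univ
        rw [indicator_univ] at h2
        exact (h2.pow_const 2).mul (hav.pow_const θ)
      rw [lintegral_prod _ hm.aemeasurable]
    rw [e1]
    refine key.trans (le_of_eq ?_)
    have e2 : ∀ y, ‖f y‖ₑ ^ 2 * (ENNReal.ofReal R ^ (1 - θ) * ka R (fun y => ‖f y‖ₑ) y ^ θ) =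
        ENNReal.ofReal (R ^ (1 - θ)) * (‖f y‖ₑ ^ 2 * ka R (fun y => ‖f y‖ₑ) y ^ θ) := by
      intro y
      rw [ENNReal.ofReal_rpow_of_pos hR0]
      ring
    rw [lintegral_congr e2, lintegral_const_mul' _ _ ENNReal.ofReal_ne_top]
    push_cast
    ring
  · have h2 := (hC₂ R _ hR (bc_indicator hf hS)).2
    have hm : Measurable fun q : ℝ × EE d => ‖W a (S.indicator f) (q.2, q.1)‖ₑ ^ 2 :=
      (hWm S hS).pow_const 2
    rw [lintegral_prod _ hm.aemeasurable]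
    refine h2.trans ?_
    have e3 := lintegral_indicator_sq f hS (fun _ => 1)
    simp only [mul_one] at e3
    rw [e3, lintegral_mul_const' _ _ ENNReal.ofReal_ne_top, mul_assoc,
      mul_comm (ENNReal.ofReal R)]
    refine mul_le_mul' ?_ le_rfl
    exact_mod_cast le_max_right C₁ C₂
  · have h2 := hC₁ R (fun y => ‖f y‖ₑ) _ hR (bc_indicator hf hS) hg
    have hm : Measurable fun q : ℝ × EE d => ‖W a (S.indicator f) (q.2, q.1)‖ₑ ^ 2 *
        av (fun y => ‖f y‖ₑ) (q.2, q.1) := ((hWm S hS).pow_const 2).mul hav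
    rw [lintegral_prod _ hm.aemeasurable]
    refine h2.trans ?_
    rw [lintegral_indicator_sq f hS]
    refine mul_le_mul' ?_ le_rfl
    exact_mod_cast le_max_left C₁ C₂

theorem pf_KIA (hT : T_TWG) (hL : T_WL2) (hP : T_PT) (hI : T_INT) : T_KIA := by
  intro d p a hd hp2 hp3 ha
  obtain ⟨C₁, hC₁⟩ := kia_int hT hL hI d (p - 2) a hd (by linarith) (by linarith) ha
  obtain ⟨C₂, hC₂⟩ := hP d a (by omega) ha
  have hθ : 0 ≤ p - 2 := by linarith
  refine ⟨C₂ ^ (p - 2) * C₁, fun R f hR hf => ?_⟩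
  have hR0 : 0 < R := by linarith
  have h1 : ∀ t ∈ Icc R (2 * R), ∫⁻ x : EE d, ‖W a f (x, t)‖ₑ ^ p ≤
      (C₂ * ENNReal.ofReal (R ^ (-(((d : ℝ) - 1) / 2)))) ^ (p - 2) *
        ∫⁻ x : EE d, ‖W a f (x, t)‖ₑ ^ 2 * av (fun y => ‖f y‖ₑ) (x, t) ^ (p - 2) := by
    intro t ht
    have hc : (C₂ * ENNReal.ofReal (R ^ (-(((d : ℝ) - 1) / 2)))) ^ (p - 2) ≠ ⊤ :=
      ENNReal.rpow_ne_top_of_nonneg hθ (ENNReal.mul_ne_top ENNReal.coe_ne_top
        ENNReal.ofReal_ne_top)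
    rw [← lintegral_const_mul' _ _ hc]
    refine lintegral_mono fun x => ?_
    have h2 := hC₂ R f (x, t) hR ht.1 ht.2
    have h3 : ‖W a f (x, t)‖ₑ ^ p = ‖W a f (x, t)‖ₑ ^ 2 * ‖W a f (x, t)‖ₑ ^ (p - 2) := by
      have h4 : ‖W a f (x, t)‖ₑ ^ 2 = ‖W a f (x, t)‖ₑ ^ (2 : ℝ) := by
        rw [← ENNReal.rpow_natCast]
        norm_num
      rw [h4, ← ENNReal.rpow_add_of_nonneg _ _ (by norm_num) hθ]
      congr 1
      ring
    rw [h3]
    calc ‖W a f (x, t)‖ₑ ^ 2 * ‖W a f (x, t)‖ₑ ^ (p - 2)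
        ≤ ‖W a f (x, t)‖ₑ ^ 2 * (C₂ * ENNReal.ofReal (R ^ (-(((d : ℝ) - 1) / 2))) *
          av (fun y => ‖f y‖ₑ) (x, t)) ^ (p - 2) :=
          mul_le_mul' le_rfl (ENNReal.rpow_le_rpow h2 hθ)
      _ = _ := by
          rw [ENNReal.mul_rpow_of_nonneg _ _ hθ]
          ring
  calc ∫⁻ t in Icc R (2 * R), ∫⁻ x : EE d, ‖W a f (x, t)‖ₑ ^ p
      ≤ ∫⁻ t in Icc R (2 * R), (C₂ * ENNReal.ofReal (R ^ (-(((d : ℝ) - 1) / 2)))) ^ (p - 2) *
        ∫⁻ x : EE d, ‖W a f (x, t)‖ₑ ^ 2 * av (fun y => ‖f y‖ₑ) (x, t) ^ (p - 2) :=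
        setLIntegral_mono' measurableSet_Icc h1
    _ = (C₂ * ENNReal.ofReal (R ^ (-(((d : ℝ) - 1) / 2)))) ^ (p - 2) *
        ∫⁻ t in Icc R (2 * R), ∫⁻ x : EE d, ‖W a f (x, t)‖ₑ ^ 2 *
          av (fun y => ‖f y‖ₑ) (x, t) ^ (p - 2) := by
        rw [lintegral_const_mul']
        exact ENNReal.rpow_ne_top_of_nonneg hθ (ENNReal.mul_ne_top ENNReal.coe_ne_top
          ENNReal.ofReal_ne_top)
    _ ≤ (C₂ * ENNReal.ofReal (R ^ (-(((d : ℝ) - 1) / 2)))) ^ (p - 2) *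
        (C₁ * ENNReal.ofReal (R ^ (1 - (p - 2))) *
          ∫⁻ x, ‖f x‖ₑ ^ 2 * ka R (fun y => ‖f y‖ₑ) x ^ (p - 2)) :=
        mul_le_mul' le_rfl (hC₁ R f hR hf)
    _ = _ := by
        have h5 : R ^ (3 - p - ((d : ℝ) - 1) * (p - 2) / 2) =
            (R ^ (-(((d : ℝ) - 1) / 2))) ^ (p - 2) * R ^ (1 - (p - 2)) := by
          rw [← Real.rpow_mul hR0.le, ← Real.rpow_add hR0]
          congr 1
          ring
        rw [h5, ENNReal.ofReal_mul (by positivity), ENNReal.mul_rpow_of_nonneg _ _ hθ,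
          ENNReal.ofReal_rpow_of_nonneg (by positivity) hθ, ENNReal.coe_mul,
          ENNReal.coe_rpow_of_nonneg _ hθ]
        ring

end Pool.Agent.H27.C1
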