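import Pool.Agent.H94.C1.Targets

/-! TW: weighted estimate near the light cone of a point. -/

set_option autoImplicit false

namespace Pool.Agent.H27.C1

open MeasureTheory Set Pool.Agent.H82.KL Pool.Agent.H94.C1
open scoped ENNReal NNReal

theorem hy_pos {d : ℕ} (x : EE d) : 1 ≤ hy x := by
  unfold hy
  rw [Real.one_le_sqrt]
  nlinarith [sq_nonneg ‖x‖]

theorem hy_sq {d : ℕ} (x : EE d) : hy x ^ 2 = 1 + ‖x‖ ^ 2 := by
  unfold hy
  exact Real.sq_sqrt (by positivity)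

theorem hy_cont {d : ℕ} : Continuous (hy (d := d)) := by
  unfold hy
  fun_prop

theorem norm_le_hy {d : ℕ} (x : EE d) : ‖x‖ ≤ hy x := by
  unfold hy
  exact Real.le_sqrt_of_sq_le (by linarith)

theorem hy_le {d : ℕ} (x : EE d) : hy x ≤ ‖x‖ + 1 := by
  unfold hy
  refine Real.sqrt_le_iff.2 ⟨by positivity, ?_⟩
  nlinarith [norm_nonneg x]

theorem wt_meas {d : ℕ} : Measurable (wt (d := d)) := by
  unfold wt
  fun_prop

/-- the pointwise inequality -/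
theorem tw_point {d : ℕ} {R t s : ℝ} {x : EE d} (hR : 1 ≤ R) (ht : t = s + hy x)
    (h1 : t ≤ 2 * R) :
    ENNReal.ofReal (((1 + abs (‖x‖ - t)) ^ (d + 8))⁻¹) * ENNReal.ofReal ((1 + |s|) ^ 2) ≤
      wt x * (ENNReal.ofReal (2 ^ (d + 10)) * ENNReal.ofReal (R ^ 2) *
        ENNReal.ofReal ((1 + ‖s‖) ^ (-(2 : ℝ)))) := by
  have hs : 0 ≤ |s| := abs_nonneg s
  have h2 : (1 + |s|) / 2 ≤ 1 + abs (‖x‖ - t) := by
    have h3 : |s| ≤ abs (‖x‖ - t) + 1 := by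
      have h4 : s = (‖x‖ - hy x) - (‖x‖ - t) := by rw [ht]; ring
      have h5 : |‖x‖ - hy x| ≤ 1 := by
        rw [abs_le]
        constructor <;> linarith [norm_le_hy x, hy_le x]
      calc |s| = |(‖x‖ - hy x) - (‖x‖ - t)| := by rw [← h4]
        _ ≤ |‖x‖ - hy x| + |‖x‖ - t| := abs_sub _ _
        _ ≤ _ := by linarith
    have h4 : 0 ≤ abs (‖x‖ - t) := abs_nonneg _
    linarith
  have h3 : hy x ≤ 2 * R * (1 + |s|) := by
    have h4 : -s ≤ |s| := neg_le_abs s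
    nlinarith
  have h4 : 1 ≤ wt x * ENNReal.ofReal (4 * R ^ 2 * (1 + |s|) ^ 2) := by
    unfold wt
    rw [← ENNReal.ofReal_mul (by positivity)]
    rw [ENNReal.one_le_ofReal, ← hy_sq, one_div, inv_mul_eq_div, one_le_div (by
      have := hy_pos x
      positivity)]
    calc hy x ^ 2 ≤ (2 * R * (1 + |s|)) ^ 2 := by
          have := hy_pos x
          exact pow_le_pow_left₀ (by linarith) h3 2
      _ = _ := by ring
  have h5 : ((1 + abs (‖x‖ - t)) ^ (d + 8))⁻¹ * (1 + |s|) ^ 2 * (4 * R ^ 2 * (1 + |s|) ^ 2) ≤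
      2 ^ (d + 10) * R ^ 2 * (1 + ‖s‖) ^ (-(2 : ℝ)) := by
    have h6 : ((1 + abs (‖x‖ - t)) ^ (d + 8))⁻¹ ≤ 2 ^ (d + 8) * ((1 + |s|) ^ (d + 8))⁻¹ := by
      have h7 : (((1 + |s|) / 2) ^ (d + 8))⁻¹ = 2 ^ (d + 8) * ((1 + |s|) ^ (d + 8))⁻¹ := by
        rw [div_pow, inv_div, div_eq_mul_inv]
      rw [← h7]
      refine inv_anti₀ (by positivity) ?_
      exact pow_le_pow_left₀ (by positivity) h2 _
    have h8 : (1 + ‖s‖) ^ (-(2 : ℝ)) = ((1 + |s|) ^ 2)⁻¹ := by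
      rw [Real.norm_eq_abs, Real.rpow_neg (by positivity)]
      norm_num
    have h9 : (1 + |s|) ^ 4 * ((1 + |s|) ^ (d + 8))⁻¹ ≤ ((1 + |s|) ^ 2)⁻¹ := by
      rw [← div_eq_mul_inv, div_le_iff₀ (by positivity), ← div_eq_inv_mul,
        le_div_iff₀ (by positivity), ← pow_add]
      exact pow_le_pow_right₀ (by linarith) (by omega)
    rw [h8]
    calc ((1 + abs (‖x‖ - t)) ^ (d + 8))⁻¹ * (1 + |s|) ^ 2 * (4 * R ^ 2 * (1 + |s|) ^ 2)
        ≤ 2 ^ (d + 8) * ((1 + |s|) ^ (d + 8))⁻¹ * (1 + |s|) ^ 2 * (4 * R ^ 2 * (1 + |s|) ^ 2) := by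
          gcongr
      _ = 2 ^ (d + 10) * R ^ 2 * ((1 + |s|) ^ 4 * ((1 + |s|) ^ (d + 8))⁻¹) := by
          rw [show d + 10 = d + 8 + 2 by ring, pow_add (2 : ℝ) (d + 8) 2]
          ring
      _ ≤ _ := by gcongr
  calc ENNReal.ofReal (((1 + abs (‖x‖ - t)) ^ (d + 8))⁻¹) * ENNReal.ofReal ((1 + |s|) ^ 2)
      = 1 * (ENNReal.ofReal (((1 + abs (‖x‖ - t)) ^ (d + 8))⁻¹) *
          ENNReal.ofReal ((1 + |s|) ^ 2)) := (one_mul _).symm
    _ ≤ (wt x * ENNReal.ofReal (4 * R ^ 2 * (1 + |s|) ^ 2)) *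
          (ENNReal.ofReal (((1 + abs (‖x‖ - t)) ^ (d + 8))⁻¹) *
            ENNReal.ofReal ((1 + |s|) ^ 2)) := by gcongr
    _ = wt x * (ENNReal.ofReal (((1 + abs (‖x‖ - t)) ^ (d + 8))⁻¹) *
          ENNReal.ofReal ((1 + |s|) ^ 2) * ENNReal.ofReal (4 * R ^ 2 * (1 + |s|) ^ 2)) := by
        simp only [mul_assoc]
        congr 1
        rw [mul_comm, mul_assoc]
    _ = wt x * ENNReal.ofReal (((1 + abs (‖x‖ - t)) ^ (d + 8))⁻¹ * (1 + |s|) ^ 2 *
          (4 * R ^ 2 * (1 + |s|) ^ 2)) := by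
        rw [← ENNReal.ofReal_mul (p := ((1 + abs (‖x‖ - t)) ^ (d + 8))⁻¹) (by positivity),
          ← ENNReal.ofReal_mul (by positivity)]
    _ ≤ wt x * ENNReal.ofReal (2 ^ (d + 10) * R ^ 2 * (1 + ‖s‖) ^ (-(2 : ℝ))) := by
        gcongr
    _ = _ := by
        rw [ENNReal.ofReal_mul (by positivity), ENNReal.ofReal_mul (by positivity)]

theorem lintegral_decay : ∫⁻ s : ℝ, ENNReal.ofReal ((1 + ‖s‖) ^ (-(2 : ℝ))) < ⊤ :=
  finite_integral_one_add_norm (by simp)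

/-- the case `y = 0` -/
theorem tw_zero (hH : T_HW) (hL : T_WL2) (d : ℕ) (a : EE d → ℂ) (hd : 3 ≤ d) (ha : Sym a) :
    ∃ C : ℝ≥0, ∀ (R : ℝ) (f : EE d → ℂ), 1 ≤ R → BC f →
      ∫⁻ t in Icc R (2 * R), ∫⁻ x : EE d, ‖W a f (x, t)‖ₑ ^ 2 *
          ENNReal.ofReal (((1 + abs (‖x‖ - t)) ^ (d + 8))⁻¹) ≤
        C * ENNReal.ofReal (R ^ 2) * ∫⁻ z, ‖f z‖ₑ ^ 2 * wt z := by
  obtain ⟨C, hC⟩ := hH d a hd ha
  obtain ⟨C', hC'⟩ := hL d a ha
  obtain ⟨κ, hκ⟩ : ∃ κ : ℝ≥0, (κ : ℝ≥0∞) = ∫⁻ s : ℝ, ENNReal.ofReal ((1 + ‖s‖) ^ (-(2 : ℝ))) :=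
    ⟨_, ENNReal.coe_toNNReal lintegral_decay.ne⟩
  refine ⟨2 ^ (d + 10) * κ * C, fun R f hR hf => ?_⟩
  have hWc : Continuous (W a f) := (hC' R f hR hf).1
  -- the integrand
  obtain ⟨F, hF⟩ : ∃ F : EE d → ℝ → ℝ≥0∞, F = fun x t => (Icc R (2 * R)).indicator
      (fun t => ‖W a f (x, t)‖ₑ ^ 2 * ENNReal.ofReal (((1 + abs (‖x‖ - t)) ^ (d + 8))⁻¹)) t :=
    ⟨_, rfl⟩
  have hF1 : Measurable (Function.uncurry F) := by
    have h1 : Measurable fun q : EE d × ℝ => ‖W a f (q.1, q.2)‖ₑ ^ 2 *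
        ENNReal.ofReal (((1 + abs (‖q.1‖ - q.2)) ^ (d + 8))⁻¹) := by
      have h2 : Measurable fun q : EE d × ℝ => ‖W a f (q.1, q.2)‖ₑ ^ 2 := by
        exact (hWc.measurable.enorm.pow_const 2)
      refine h2.mul ?_
      fun_prop
    have h3 : Function.uncurry F = (univ ×ˢ Icc R (2 * R)).indicator
        (fun q : EE d × ℝ => ‖W a f (q.1, q.2)‖ₑ ^ 2 *
          ENNReal.ofReal (((1 + abs (‖q.1‖ - q.2)) ^ (d + 8))⁻¹)) := by
      funext q
      obtain ⟨x, t⟩ := q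
      rw [hF]
      by_cases ht : t ∈ Icc R (2 * R)
      · simp only [Function.uncurry]
        rw [indicator_of_mem ht, indicator_of_mem (by simp [ht] : ((x, t) : EE d × ℝ) ∈ _)]
      · simp only [Function.uncurry]
        rw [indicator_of_notMem ht, indicator_of_notMem (by
          intro h
          exact ht h.2)]
    rw [h3]
    exact h1.indicator (MeasurableSet.univ.prod measurableSet_Icc)
  have hshift : Measurable fun q : EE d × ℝ => F q.1 (q.2 + hy q.1) := by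
    have h1 : Measurable fun q : EE d × ℝ => ((q.1, q.2 + hy q.1) : EE d × ℝ) :=
      measurable_fst.prodMk (measurable_snd.add (hy_cont.measurable.comp measurable_fst))
    exact hF1.comp h1
  have e1 : ∫⁻ t in Icc R (2 * R), ∫⁻ x : EE d, ‖W a f (x, t)‖ₑ ^ 2 *
      ENNReal.ofReal (((1 + abs (‖x‖ - t)) ^ (d + 8))⁻¹) = ∫⁻ t : ℝ, ∫⁻ x : EE d, F x t := by
    rw [← lintegral_indicator measurableSet_Icc]
    refine lintegral_congr fun t => ?_
    rw [hF]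
    by_cases ht : t ∈ Icc R (2 * R)
    · rw [indicator_of_mem ht]
      refine lintegral_congr fun x => ?_
      beta_reduce
      rw [indicator_of_mem ht]
    · rw [indicator_of_notMem ht]
      beta_reduce
      simp [indicator_of_notMem ht]
  have e2 : ∫⁻ t : ℝ, ∫⁻ x : EE d, F x t = ∫⁻ x : EE d, ∫⁻ t : ℝ, F x t := by
    refine lintegral_lintegral_swap ?_
    have h1 : Measurable fun q : ℝ × EE d => F q.2 q.1 := hF1.comp measurable_swap
    exact h1.aemeasurable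
  have e3 : ∫⁻ x : EE d, ∫⁻ t : ℝ, F x t = ∫⁻ x : EE d, ∫⁻ s : ℝ, F x (s + hy x) :=
    lintegral_congr fun x => (lintegral_add_right_eq_self (fun t => F x t) (hy x)).symm
  have e4 : ∫⁻ x : EE d, ∫⁻ s : ℝ, F x (s + hy x) = ∫⁻ s : ℝ, ∫⁻ x : EE d, F x (s + hy x) := by
    refine lintegral_lintegral_swap ?_
    exact hshift.aemeasurable
  rw [e1, e2, e3, e4]
  have h5 : ∀ (s : ℝ) (x : EE d), F x (s + hy x) * ENNReal.ofReal ((1 + |s|) ^ 2) ≤
      ‖W a f (x, hy x + s)‖ₑ ^ 2 * wt x * (ENNReal.ofReal (2 ^ (d + 10)) * ENNReal.ofReal (R ^ 2) *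
        ENNReal.ofReal ((1 + ‖s‖) ^ (-(2 : ℝ)))) := by
    intro s x
    rw [hF]
    beta_reduce
    by_cases ht : s + hy x ∈ Icc R (2 * R)
    · rw [indicator_of_mem ht, mul_assoc, mul_assoc, add_comm (hy x) s]
      exact mul_le_mul' le_rfl (tw_point hR rfl ht.2)
    · rw [indicator_of_notMem ht, zero_mul]
      exact zero_le
  have h6 : ∀ s : ℝ, ∫⁻ x : EE d, F x (s + hy x) ≤
      (C * ∫⁻ z, ‖f z‖ₑ ^ 2 * wt z) * (ENNReal.ofReal (2 ^ (d + 10)) * ENNReal.ofReal (R ^ 2) *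
        ENNReal.ofReal ((1 + ‖s‖) ^ (-(2 : ℝ)))) := by
    intro s
    have hs0 : 0 < (1 + |s|) ^ 2 := by positivity
    have hs : ENNReal.ofReal ((1 + |s|) ^ 2) ≠ 0 := by
      rw [Ne, ENNReal.ofReal_eq_zero, not_le]
      exact hs0
    have h7 : (∫⁻ x : EE d, F x (s + hy x)) * ENNReal.ofReal ((1 + |s|) ^ 2) ≤
        ((C * ∫⁻ z, ‖f z‖ₑ ^ 2 * wt z) * (ENNReal.ofReal (2 ^ (d + 10)) *
          ENNReal.ofReal (R ^ 2) * ENNReal.ofReal ((1 + ‖s‖) ^ (-(2 : ℝ))))) *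
          ENNReal.ofReal ((1 + |s|) ^ 2) := by
      have hms : Measurable fun x : EE d => F x (s + hy x) := by
        have := hshift.comp (measurable_id.prodMk measurable_const : Measurable fun x : EE d =>
          ((x, s) : EE d × ℝ))
        exact this
      have hmw : Measurable fun x : EE d => ‖W a f (x, hy x + s)‖ₑ ^ 2 * wt x := by
        have h8 : Continuous fun x : EE d => W a f (x, hy x + s) :=
          hWc.comp (continuous_id.prodMk (hy_cont.add continuous_const))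
        exact (h8.measurable.enorm.pow_const 2).mul wt_meas
      rw [← lintegral_mul_const _ hms]
      refine (lintegral_mono fun x => h5 s x).trans ?_
      rw [lintegral_mul_const _ hmw]
      refine (mul_le_mul_left (hC s f hf) _).trans (le_of_eq ?_)
      ring
    exact (ENNReal.mul_le_mul_iff_left hs ENNReal.ofReal_ne_top).1 h7
  refine (lintegral_mono h6).trans ?_
  have hm : Measurable fun s : ℝ => ENNReal.ofReal ((1 + ‖s‖) ^ (-(2 : ℝ))) := by fun_prop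
  rw [lintegral_const_mul _ (by fun_prop), lintegral_const_mul _ hm, ← hκ]
  have h9 : ENNReal.ofReal (2 ^ (d + 10)) = 2 ^ (d + 10) := by
    rw [ENNReal.ofReal_pow (by norm_num)]
    norm_num
  rw [h9]
  push_cast
  refine le_of_eq ?_
  ring

theorem bc_shift {d : ℕ} {f : EE d → ℂ} (hf : BC f) (y : EE d) : BC fun z => f (z + y) := by
  obtain ⟨h1, ⟨A, h2⟩, R, h3⟩ := hf
  refine ⟨h1.comp (measurable_add_const y), ⟨A, fun z => h2 _⟩, R + ‖y‖, fun z hz => h3 _ ?_⟩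
  have h4 : ‖z‖ ≤ ‖z + y‖ + ‖y‖ := by
    calc ‖z‖ = ‖(z + y) - y‖ := by rw [add_sub_cancel_right]
      _ ≤ _ := norm_sub_le _ _
  linarith

theorem w_shift {d : ℕ} (a f : EE d → ℂ) (x y : EE d) (t : ℝ) :
    W a f (x + y, t) = W a (fun z => f (z + y)) (x, t) := by
  unfold W
  rw [← integral_add_right_eq_self (fun z => U a (((x + y, t) : EE d × ℝ).1 - z,
    ((x + y, t) : EE d × ℝ).2) * f z) y]
  refine integral_congr_ae (Filter.Eventually.of_forall fun z => ?_)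
  beta_reduce
  rw [add_sub_add_right_eq_sub]

theorem pf_TW (hH : T_HW) (hL : T_WL2) : T_TW := by
  intro d a hd ha
  obtain ⟨C, hC⟩ := tw_zero hH hL d a hd ha
  refine ⟨C, fun R y f hR hf => ?_⟩
  have h1 := hC R (fun z => f (z + y)) hR (bc_shift hf y)
  have h2 : ∫⁻ z, ‖f z‖ₑ ^ 2 * wt (z - y) = ∫⁻ z, ‖f (z + y)‖ₑ ^ 2 * wt z := by
    rw [← lintegral_add_right_eq_self (fun z => ‖f z‖ₑ ^ 2 * wt (z - y)) y]
    refine lintegral_congr fun z => ?_
    rw [add_sub_cancel_right]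
  rw [h2]
  refine le_trans (le_of_eq ?_) h1
  refine lintegral_congr fun t => ?_
  rw [← lintegral_add_right_eq_self (fun x => ‖W a f (x, t)‖ₑ ^ 2 *
      ENNReal.ofReal (((1 + abs (‖x - y‖ - t)) ^ (d + 8))⁻¹)) y]
  refine lintegral_congr fun x => ?_
  rw [w_shift, add_sub_cancel_right]

end Pool.Agent.H27.C1
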