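import Pool.Agent.H94.C1.Targets

/-! TWG: weighted estimate, averaged over the vertex of the light cone. -/

set_option autoImplicit false

namespace Pool.Agent.H27.C1

open MeasureTheory Set Pool.Agent.H82.KL Pool.Agent.H94.C1
open scoped ENNReal NNReal

section swap

variable {T X Y Z : Type} [MeasurableSpace T] [MeasurableSpace X] [MeasurableSpace Y]
  [MeasurableSpace Z] (μ : Measure T) (ν : Measure X) (ρ : Measure Y) (η : Measure Z) [SFinite μ]
  [SFinite ν] [SFinite ρ] [SFinite η]

theorem avg_swap (w : T → X → ℝ≥0∞) (k : T → X → Y → ℝ≥0∞) (g : Y → ℝ≥0∞)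
    (hw : Measurable fun q : T × X => w q.1 q.2)
    (hk : Measurable fun q : (T × X) × Y => k q.1.1 q.1.2 q.2) (hg : Measurable g) :
    ∫⁻ t, ∫⁻ x, w t x * ∫⁻ y, g y * k t x y ∂ρ ∂ν ∂μ =
      ∫⁻ y, g y * ∫⁻ t, ∫⁻ x, w t x * k t x y ∂ν ∂μ ∂ρ := by
  have hF : Measurable fun q : (T × X) × Y => g q.2 * (w q.1.1 q.1.2 * k q.1.1 q.1.2 q.2) :=
    (hg.comp measurable_snd).mul ((hw.comp measurable_fst).mul hk)
  have hk2 : Measurable fun q : (T × Y) × X => w q.1.1 q.2 * k q.1.1 q.2 q.1.2 := by
    have h1 : Measurable fun q : (T × Y) × X => (((q.1.1, q.2), q.1.2) : (T × X) × Y) := by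
      fun_prop
    exact ((hw.comp measurable_fst).mul hk).comp h1
  have e1 : ∀ t, ∫⁻ x, w t x * ∫⁻ y, g y * k t x y ∂ρ ∂ν =
      ∫⁻ y, g y * ∫⁻ x, w t x * k t x y ∂ν ∂ρ := by
    intro t
    have h1 : ∀ x, w t x * ∫⁻ y, g y * k t x y ∂ρ = ∫⁻ y, g y * (w t x * k t x y) ∂ρ := by
      intro x
      have h2 : Measurable fun y => g y * k t x y := by
        have h3 : Measurable fun y : Y => (((t, x), y) : (T × X) × Y) := by fun_prop
        exact hg.mul (hk.comp h3)
      rw [← lintegral_const_mul _ h2]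
      exact lintegral_congr fun y => by ring
    rw [lintegral_congr h1, lintegral_lintegral_swap]
    · refine lintegral_congr fun y => ?_
      have h3 : Measurable fun x => w t x * k t x y := by
        have h4 : Measurable fun x : X => (((t, y), x) : (T × Y) × X) := by fun_prop
        exact hk2.comp h4
      exact lintegral_const_mul _ h3
    · have h3 : Measurable fun q : X × Y => (((t, q.1), q.2) : (T × X) × Y) := by fun_prop
      exact (hF.comp h3).aemeasurable
  rw [lintegral_congr e1, lintegral_lintegral_swap]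
  · refine lintegral_congr fun y => ?_
    have h4 : Measurable fun t => ∫⁻ x, w t x * k t x y ∂ν := by
      have h5 : Measurable fun q : T × X => w q.1 q.2 * k q.1 q.2 y := by
        have h6 : Measurable fun q : T × X => (((q.1, y), q.2) : (T × Y) × X) := by fun_prop
        exact hk2.comp h6
      exact h5.lintegral_prod_right'
    exact lintegral_const_mul _ h4
  · have h5 : Measurable fun q : T × Y => ∫⁻ x, w q.1 x * k q.1 x q.2 ∂ν :=
      hk2.lintegral_prod_right'
    exact ((hg.comp measurable_snd).mul h5).aemeasurable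

theorem avg_swap2 (F : Z → ℝ≥0∞) (m : Z → Y → ℝ≥0∞) (g : Y → ℝ≥0∞) (c r : ℝ≥0∞)
    (hF : Measurable F) (hm : Measurable fun q : Z × Y => m q.1 q.2) (hg : Measurable g) :
    ∫⁻ y, g y * (c * r * ∫⁻ z, F z * m z y ∂η) ∂ρ =
      c * ∫⁻ z, F z * ∫⁻ y, g y * (r * m z y) ∂ρ ∂η := by
  have h0 : ∀ y, Measurable fun z => m z y := fun y => by
    have h1 : Measurable fun z : Z => ((z, y) : Z × Y) := by fun_prop
    exact hm.comp h1
  have h0' : ∀ z, Measurable fun y => m z y := fun z => by
    have h1 : Measurable fun y : Y => ((z, y) : Z × Y) := by fun_prop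
    exact hm.comp h1
  have h1 : ∀ y, g y * (c * r * ∫⁻ z, F z * m z y ∂η) =
      c * ∫⁻ z, F z * (g y * (r * m z y)) ∂η := by
    intro y
    have h2 : ∫⁻ z, F z * (g y * (r * m z y)) ∂η = g y * r * ∫⁻ z, F z * m z y ∂η := by
      have h2' : Measurable fun z => F z * m z y := hF.mul (h0 y)
      rw [← lintegral_const_mul _ h2']
      exact lintegral_congr fun z => by ring
    rw [h2]
    ring
  have h3 : Measurable fun q : Y × Z => F q.2 * (g q.1 * (r * m q.2 q.1)) :=
    (hF.comp measurable_snd).mul ((hg.comp measurable_fst).mul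
      ((hm.comp measurable_swap).const_mul r))
  rw [lintegral_congr h1, lintegral_const_mul]
  · congr 1
    rw [lintegral_lintegral_swap h3.aemeasurable]
    exact lintegral_congr fun z => lintegral_const_mul _ (hg.mul ((h0' z).const_mul r))
  · exact h3.lintegral_prod_right'

end swap

theorem pf_TWG (hT : T_TW) (hL : T_WL2) : T_TWG := by
  intro d a hd ha
  obtain ⟨C, hC⟩ := hT d a hd ha
  obtain ⟨C', hC'⟩ := hL d a ha
  refine ⟨C, fun R g f hR hf hg => ?_⟩
  have hWm : Measurable (W a f) := (hC' R f hR hf).1.measurable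
  have hwt : Measurable (wt (d := d)) := by
    unfold wt
    fun_prop
  have hw : Measurable fun q : ℝ × EE d => ‖W a f (q.2, q.1)‖ₑ ^ 2 := by
    have h1 : Measurable fun q : ℝ × EE d => W a f (q.2, q.1) :=
      hWm.comp (measurable_snd.prodMk measurable_fst)
    exact h1.enorm.pow_const 2
  have hk : Measurable fun q : (ℝ × EE d) × EE d =>
      ENNReal.ofReal (((1 + abs (‖q.1.2 - q.2‖ - q.1.1)) ^ (d + 8))⁻¹) := by fun_prop
  have e1 := avg_swap (volume.restrict (Icc R (2 * R))) (volume : Measure (EE d))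
    (volume : Measure (EE d)) (fun t x => ‖W a f (x, t)‖ₑ ^ 2)
    (fun t x y => ENNReal.ofReal (((1 + abs (‖x - y‖ - t)) ^ (d + 8))⁻¹)) g hw hk hg
  have hm : Measurable fun q : EE d × EE d => wt (q.1 - q.2) :=
    hwt.comp (measurable_fst.sub measurable_snd)
  have e2 := avg_swap2 (volume : Measure (EE d)) (volume : Measure (EE d))
    (fun z => ‖f z‖ₑ ^ 2) (fun z y => wt (z - y)) g (C : ℝ≥0∞) (ENNReal.ofReal (R ^ 2))
    (hf.1.enorm.pow_const 2) hm hg
  refine (le_of_eq e1).trans (le_trans ?_ (le_of_eq e2))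
  exact lintegral_mono fun y => mul_le_mul' (le_refl (g y)) (hC R y f hR hf)

end Pool.Agent.H27.C1
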